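import Mathlib
import Pool.Agent.TH481.Upper

set_option autoImplicit false

/-!
Flat maximal antichains on the levels `l` and `l + 1`: an upper bound for `min S(n,l)` in terms of
the Turán density `t_l`. Its ratio to the known lower bound `(1 - (l-1)/l * t_l) C(n,l)` tends to `1`
as `l → ∞`.
-/

namespace Pool.Agent.Results.MP_62b59a_co.GeneralLevels

open Filter Topology

/-- `𝒜` is a maximal antichain in the Boolean lattice `B_n` of all subsets of an `n`-set: no member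
is a proper subset of another one, and no further set can be added. -/
def IsMaxAntichain (n : ℕ) (𝒜 : Finset (Finset (Fin n))) : Prop :=
  (∀ A ∈ 𝒜, ∀ B ∈ 𝒜, ¬ A ⊂ B) ∧
  ∀ S : Finset (Fin n), S ∉ 𝒜 → ∃ A ∈ 𝒜, A ⊂ S ∨ S ⊂ A

/-- `S(n,l)`: the set of sizes of the maximal antichains of `B_n` all of whose members have size
`l` or `l + 1`. -/
def S (n l : ℕ) : Set ℕ :=
  {m | ∃ 𝒜 : Finset (Finset (Fin n)), (∀ A ∈ 𝒜, A.card = l ∨ A.card = l + 1) ∧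
    IsMaxAntichain n 𝒜 ∧ 𝒜.card = m}

/-- The Turán number: the largest number of edges of an `l`-uniform hypergraph on `n` vertices
without `l + 1` vertices all of whose `l`-subsets are edges. -/
noncomputable def ex (n l : ℕ) : ℕ :=
  sSup {m | ∃ H : Finset (Finset (Fin n)), ((∀ A ∈ H, A.card = l) ∧
    ∀ C : Finset (Fin n), C.card = l + 1 → ∃ A : Finset (Fin n), A ⊆ C ∧ A.card = l ∧ A ∉ H) ∧
    H.card = m}

/-- The Turán density `t_l`: the limit of `ex(n,l) / C(n,l)` as `n → ∞`. -/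
noncomputable def turanDensity (l : ℕ) : ℝ :=
  limUnder atTop (fun n : ℕ => (ex n l : ℝ) / (n.choose l : ℝ))

/-- The limit defining `turanDensity l` exists. -/
lemma tendsto_turan (l : ℕ) : Tendsto (fun n : ℕ => (ex n l : ℝ) / (n.choose l : ℝ)) atTop
    (𝓝 (turanDensity l)) :=
  tendsto_nhds_limUnder (Pool.Agent.TH481.Lim.exists_lim l)

/-- from flat maximal antichains to `S(n,l)` -/
lemma exists_least {n l : ℕ} {b : ℝ} (h : ∃ 𝒜 : Finset (Finset (Fin n)),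
    Pool.Agent.TH481.IsFlatMax l 𝒜 ∧ (𝒜.card : ℝ) ≤ b) :
    ∃ m : ℕ, IsLeast (S n l) m ∧ (m : ℝ) ≤ b := by
  obtain ⟨𝒜, h1, h2⟩ := h
  have hcS : 𝒜.card ∈ S n l := by
    refine ⟨𝒜, h1.1, ⟨?_, ?_⟩, rfl⟩
    · intro A hA B hB hAB
      have := h1.2.1 A hA B hB hAB.1
      rw [this] at hAB
      exact absurd hAB (ssubset_irrefl _)
    · intro T hT
      obtain ⟨A, hA, hAT⟩ := h1.2.2 T
      refine ⟨A, hA, ?_⟩
      have hne : A ≠ T := fun h => hT (h ▸ hA)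
      rcases hAT with h | h
      · left; exact Finset.ssubset_iff_subset_ne.2 ⟨h, hne⟩
      · right; exact Finset.ssubset_iff_subset_ne.2 ⟨h, hne.symm⟩
  refine ⟨sInf (S n l), ⟨Nat.sInf_mem ⟨_, hcS⟩, fun m hm => Nat.sInf_le hm⟩, ?_⟩
  have hle : ((sInf (S n l) : ℕ) : ℝ) ≤ (𝒜.card : ℝ) := by
    exact_mod_cast Nat.sInf_le hcS
  exact hle.trans h2

lemma part1 {l : ℕ} (hl : 2 ≤ l) {σ : ℝ} (hσ : 0 ≤ σ) (hσ1 : σ < 1) {ε : ℝ} (hε : 0 < ε) :
    ∀ᶠ n : ℕ in atTop, ∃ m : ℕ, IsLeast (S n l) m ∧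
      (m : ℝ) ≤ (1 - turanDensity l + 1 / (((l : ℝ) + 1) * (1 - σ)) +
        (1 - σ) ^ l / ((l : ℝ) + 1) + σ * (1 - σ) ^ (l - 1) + ε) * (n.choose l : ℝ) := by
  filter_upwards [Pool.Agent.TH481.Upper.upper hl hσ hσ1 (tendsto_turan l) hε] with n hn
  exact exists_least hn

lemma part2 {l : ℕ} (hl : 2 ≤ l) {ε : ℝ} (hε : 0 < ε) :
    ∀ᶠ n : ℕ in atTop, ∃ m : ℕ, IsLeast (S n l) m ∧
      (m : ℝ) ≤ (1 - turanDensity l + 1 / ((l : ℝ) + 1) +
        5 * Real.log ((l : ℝ) + 1) / ((l : ℝ) + 1) ^ 2 + ε) * (n.choose l : ℝ) := by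
  obtain ⟨σ, h1, h2, h3⟩ := Pool.Agent.TH481.Upper.exists_sigma hl (turanDensity l)
  filter_upwards [part1 hl h1 h2 hε] with n hn
  obtain ⟨m, hm, hm2⟩ := hn
  refine ⟨m, hm, hm2.trans ?_⟩
  apply mul_le_mul_of_nonneg_right _ (Nat.cast_nonneg _)
  unfold Pool.Agent.TH481.Upper.U at h3
  linarith

lemma part0 {l : ℕ} (hl : 2 ≤ l) {ε : ℝ} (hε : 0 < ε) :
    ∀ᶠ n : ℕ in atTop, ∃ m : ℕ, IsLeast (S n l) m ∧
      (m : ℝ) ≤ (1 - turanDensity l + 2 / ((l : ℝ) + 1) + ε) * (n.choose l : ℝ) := by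
  filter_upwards [part1 hl le_rfl (by norm_num : (0 : ℝ) < 1) hε] with n hn
  obtain ⟨m, hm, hm2⟩ := hn
  refine ⟨m, hm, hm2.trans ?_⟩
  apply mul_le_mul_of_nonneg_right _ (Nat.cast_nonneg _)
  have h : (2 : ℝ) / ((l : ℝ) + 1) = 1 / ((l : ℝ) + 1) + 1 / ((l : ℝ) + 1) := by
    rw [← add_div]; norm_num
  rw [h]
  simp only [sub_zero, mul_one, one_pow, add_zero]
  linarith

/-- For every `l ≥ 2`, `min S(n,l)` is at most
`(1 - t_l + min (2/(l+1)) (1/(l+1) + 5 log(l+1)/(l+1)^2) + o(1)) C(n,l)` as `n → ∞`,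
where `t_l` is the Turán density. -/
theorem result (l : ℕ) (hl : 2 ≤ l) (ε : ℝ) (hε : 0 < ε) :
    ∀ᶠ n : ℕ in atTop, ∃ m : ℕ, IsLeast (S n l) m ∧
      (m : ℝ) ≤ (1 - turanDensity l + min (2 / ((l : ℝ) + 1)) (1 / ((l : ℝ) + 1) +
        5 * Real.log ((l : ℝ) + 1) / ((l : ℝ) + 1) ^ 2) + ε) * (n.choose l : ℝ) := by
  filter_upwards [part0 hl hε, part2 hl hε] with n h0 h2
  obtain ⟨m, hm, hm0⟩ := h0
  obtain ⟨m', hm', hm2⟩ := h2
  have : m' = m := hm'.unique hm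
  subst this
  refine ⟨m', hm, ?_⟩
  rcases min_choice (2 / ((l : ℝ) + 1)) (1 / ((l : ℝ) + 1) +
        5 * Real.log ((l : ℝ) + 1) / ((l : ℝ) + 1) ^ 2) with h | h
  · rw [h]; exact hm0
  · rw [h, ← add_assoc]; exact hm2

end Pool.Agent.Results.MP_62b59a_co.GeneralLevels
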