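import Mathlib
import Pool.Agent.TH481.ThreeCount

set_option autoImplicit false

/-!
Flat maximal antichains on the levels 3 and 4: `min S(n,3) ≤ (17/27) C(n,3) + n^2`.
-/

namespace Pool.Agent.Results.MP_62b59a_co.ThreeLevels

open Finset

/-- `𝒜` is a maximal antichain in the Boolean lattice `B_n` of all subsets of an `n`-set: no member
is a proper subset of another one, and no further set can be added. -/
def IsMaxAntichain (n : ℕ) (𝒜 : Finset (Finset (Fin n))) : Prop :=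
  (∀ A ∈ 𝒜, ∀ B ∈ 𝒜, ¬ A ⊂ B) ∧
  ∀ S : Finset (Fin n), S ∉ 𝒜 → ∃ A ∈ 𝒜, A ⊂ S ∨ S ⊂ A

/-- `S(n,l)`: the set of sizes of the maximal antichains of `B_n` all of whose members have size
`l` or `l + 1`. -/
def S (n l : ℕ) : Set ℕ :=
  {m | ∃ 𝒜 : Finset (Finset (Fin n)), (∀ A ∈ 𝒜, A.card = l ∨ A.card = l + 1) ∧
    IsMaxAntichain n 𝒜 ∧ 𝒜.card = m}

/-- The smallest element of `S(n,3)` exists for `n ≥ 4` and is at most `(17/27) C(n,3) + n^2`. -/
theorem result (n : ℕ) (hn : 4 ≤ n) :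
    ∃ m : ℕ, IsLeast (S n 3) m ∧ (m : ℝ) ≤ 17 / 27 * (n.choose 3 : ℝ) + (n : ℝ) ^ 2 := by
  classical
  obtain ⟨M, s, hs, rfl⟩ : ∃ M s : ℕ, s < 3 ∧ n = 3 * M + s :=
    ⟨n / 3, n % 3, Nat.mod_lt _ (by norm_num), by omega⟩
  have hM : 1 ≤ M := by omega
  have : NeZero M := ⟨by omega⟩
  obtain ⟨hflat, hcount⟩ := Pool.Agent.TH481.Three.main_nat (M := M) (s := s) hn
  have hcov := Pool.Agent.TH481.Three.card_cov (M := M) (s := s)
  have hPP := Pool.Agent.TH481.Three.card_PP (M := M)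
  have hD1 := Pool.Agent.TH481.Three.card_D1 (M := M)
  set c := (Pool.Agent.TH481.anti 3 (Pool.Agent.TH481.Three.BB M s)).card with hc
  have hcard : Fintype.card (Pool.Agent.TH481.Three.Vt M s) = 3 * M + s := by
    rw [Fintype.card_sum, Fintype.card_prod, Fintype.card_fin, ZMod.card, Fintype.card_fin]
  obtain ⟨h1, h2⟩ := hflat.map (Fintype.equivFinOfCardEq hcard)
  have hcS : c ∈ S (3 * M + s) 3 := by
    refine ⟨_, h1.1, ⟨?_, ?_⟩, h2⟩
    · intro A hA B hB hAB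
      have := h1.2.1 A hA B hB hAB.1
      rw [this] at hAB
      exact absurd hAB (ssubset_irrefl _)
    · intro T hT
      obtain ⟨A, hA, hAT⟩ := h1.2.2 T
      refine ⟨A, hA, ?_⟩
      have hne : A ≠ T := fun h => hT (h ▸ hA)
      rcases hAT with h | h
      · left; exact Finset.ssubset_iff_subset_ne.2 ⟨h, hne⟩
      · right; exact Finset.ssubset_iff_subset_ne.2 ⟨h, hne.symm⟩
  refine ⟨sInf (S (3 * M + s) 3), ⟨Nat.sInf_mem ⟨c, hcS⟩, fun m hm => Nat.sInf_le hm⟩, ?_⟩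
  have hle : ((sInf (S (3 * M + s) 3) : ℕ) : ℝ) ≤ (c : ℝ) := by
    exact_mod_cast Nat.sInf_le hcS
  refine hle.trans ?_
  -- real arithmetic
  have e1 : (3 : ℝ) * c + 2 * ((Pool.Agent.TH481.Three.cov M s).card : ℝ) ≤
      3 * ((3 * M + s).choose 3 : ℝ) := by exact_mod_cast hcount
  have e2 : ((Pool.Agent.TH481.Three.D1 M).card : ℝ) +
      3 * (((Pool.Agent.TH481.Three.PP M).card : ℝ) * M) ≤
      ((Pool.Agent.TH481.Three.cov M s).card : ℝ) := by exact_mod_cast hcov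
  have e3 : (M : ℝ) * ((M : ℝ) - 1) / 2 ≤ ((Pool.Agent.TH481.Three.PP M).card : ℝ) + M := by
    have h := Nat.cast_choose_two ℝ M
    rw [← h]
    exact_mod_cast hPP
  have e4 : (M : ℝ) ^ 3 ≤ ((Pool.Agent.TH481.Three.D1 M).card : ℝ) + (M : ℝ) ^ 2 := by
    exact_mod_cast hD1
  have hMR : (1 : ℝ) ≤ M := by exact_mod_cast hM
  have hsR : (s : ℝ) ≤ 2 := by exact_mod_cast (by omega : s ≤ 2)
  have hs0 : (0 : ℝ) ≤ s := Nat.cast_nonneg _
  have e5 : (M : ℝ) ^ 3 - (M : ℝ) ^ 2 + 3 * (((M : ℝ) * ((M : ℝ) - 1) / 2 - M) * M) ≤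
      ((Pool.Agent.TH481.Three.cov M s).card : ℝ) := by
    have : ((M : ℝ) * ((M : ℝ) - 1) / 2 - M) * M ≤
        ((Pool.Agent.TH481.Three.PP M).card : ℝ) * M :=
      mul_le_mul_of_nonneg_right (by linarith) (by linarith)
    linarith
  have e6 : ((3 * M + s).choose 3 : ℝ) ≤ ((3 * M + s : ℕ) : ℝ) ^ 3 / 6 := by
    have h := Nat.choose_le_pow_div (α := ℝ) 3 (3 * M + s)
    have h6 : ((Nat.factorial 3 : ℕ) : ℝ) = 6 := by norm_num [Nat.factorial]
    rw [h6] at h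
    exact h
  push_cast at e6 ⊢
  set x : ℝ := (M : ℝ) with hx
  set y : ℝ := (s : ℝ) with hy
  have e7 : (c : ℝ) ≤ ((3 * M + s).choose 3 : ℝ) - 2 / 3 *
      (x ^ 3 - x ^ 2 + 3 * ((x * (x - 1) / 2 - x) * x)) := by linarith
  have e8 : 10 / 27 * ((3 * M + s).choose 3 : ℝ) ≤ 10 / 27 * ((3 * x + y) ^ 3 / 6) := by
    linarith
  have e9 : 10 / 27 * ((3 * x + y) ^ 3 / 6) - 2 / 3 *
      (x ^ 3 - x ^ 2 + 3 * ((x * (x - 1) / 2 - x) * x)) ≤ (3 * x + y) ^ 2 := by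
    have t1 : 0 ≤ x * y := mul_nonneg (by linarith) hs0
    have t2 : 0 ≤ x * x * (2 - y) := mul_nonneg (mul_nonneg (by linarith) (by linarith)) (by linarith)
    have t3 : 0 ≤ x * y * (2 - y) := mul_nonneg t1 (by linarith)
    have t4 : 0 ≤ y * y * (2 - y) := mul_nonneg (mul_nonneg hs0 hs0) (by linarith)
    have t5 : 0 ≤ y * y := mul_nonneg hs0 hs0
    have t6 : 0 ≤ x * (x - 1) := mul_nonneg (by linarith) (by linarith)
    nlinarith
  linarith

end Pool.Agent.Results.MP_62b59a_co.ThreeLevels
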